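import Pool.Agent.N964.GW.Stm
import Pool.Agent.N707.GXA3

/-!
# GW/RE: the right edge (helper413)
-/

set_option autoImplicit false

namespace Pool.Agent.N413.GWRE

open Complex MeasureTheory Set Filter Topology
open Pool.Agent.N964.GW
open Pool.Agent.N964.GX (Dk PSa)
open Pool.Agent.N964.MX (kk)
open Pool.Agent.N707.GXA3 (wl wl_re wl_im wl_cont Z Z_cont Z_norm Dk_cont)

lemma dsl_cont (l : ℝ) : Continuous (dslope (fun u : ℂ => cexp (l * u)) 0) := by
  have hd : Differentiable ℂ (fun u : ℂ => cexp (l * u)) := by fun_prop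
  rw [← continuousOn_univ]
  exact (continuousOn_dslope univ_mem).2 ⟨hd.continuous.continuousOn, hd 0⟩

lemma H2_cont {l s κ : ℝ} (hs1 : s ≤ 1) (hκ0 : 0 ≤ κ) (hκ : κ ≤ 1 / 2) :
    Continuous fun y : ℝ => H2 l s κ (wl y) := by
  have h1 : ∀ y : ℝ, wl y - (s : ℂ) ≠ 0 := by
    intro y h
    have h2 := congrArg Complex.re h
    rw [Complex.sub_re, wl_re, Complex.ofReal_re, Complex.zero_re] at h2
    linarith
  have h3 : ∀ y : ℝ, (wl y + (κ : ℂ)) ^ 2 - 25 / 4 ≠ 0 := by
    intro y h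
    have h4 : (wl y + (κ : ℂ) - 5 / 2) * (wl y + (κ : ℂ) + 5 / 2) = 0 := by
      rw [← h]
      ring
    rcases mul_eq_zero.1 h4 with h5 | h5
    · have h2 := congrArg Complex.re h5
      rw [Complex.sub_re, Complex.add_re, wl_re, Complex.ofReal_re, Complex.zero_re] at h2
      norm_num at h2
      linarith
    · have h2 := congrArg Complex.re h5
      rw [Complex.add_re, Complex.add_re, wl_re, Complex.ofReal_re, Complex.zero_re] at h2
      norm_num at h2
      linarith
  unfold H2 Hn Kp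
  refine Continuous.add ?_ (continuous_const.mul ?_)
  · refine Continuous.div ?_ (wl_cont.sub continuous_const) h1
    refine Continuous.div_const ?_ _
    refine Continuous.sub (continuous_const.mul ?_) continuous_const
    exact (dsl_cont l).comp (wl_cont.add continuous_const)
  · exact Continuous.div (wl_cont.add continuous_const)
      (((wl_cont.add continuous_const).pow 2).sub continuous_const) h3

lemma c0_nonneg {l s : ℝ} (hl : 1 ≤ l) (hs : 0 < s) : 0 ≤ c0 l s := by
  unfold c0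
  have hx : 0 < l * s := by positivity
  have h1 : 0 < Real.cosh (l * s) - 1 := by
    have := Real.one_lt_cosh.2 hx.ne'
    linarith
  have h2 := Real.cosh_sub_sinh (l * s)
  have h3 : Real.exp (-(l * s)) ≤ 1 := by
    rw [Real.exp_le_one_iff]
    linarith
  rw [sub_nonneg, le_div_iff₀ h1]
  linarith

lemma at_int (t V1 V2 : ℝ) : ∫ v in V1..V2, (1 + (v - t) ^ 2)⁻¹ ≤ Real.pi := by
  rw [intervalIntegral.integral_comp_sub_right (fun x : ℝ => (1 + x ^ 2)⁻¹) t,
    integral_inv_one_add_sq]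
  have h1 := Real.arctan_lt_pi_div_two (V2 - t)
  have h2 := Real.neg_pi_div_two_lt_arctan (V1 - t)
  linarith

theorem redge_of (h1 : S_bdr) (h2 : S_primq) : S_redge := by
  intro k A F a κ hLB hκ0 hκ1
  obtain ⟨C1, hC1, hb⟩ := h1
  obtain ⟨C2, hC2, hp⟩ := h2 k A F a hLB
  have hA := hLB.hA
  have h0 : a 0 = 0 := hLB.ha1 0 (by norm_num)
  refine ⟨A * C1 / 2 + C2 / 2, by positivity, ?_⟩
  intro t s l V1 V2 ht hs hs1 hl hlt hV1 hV2
  have hle : V1 ≤ V2 := by linarith [hV1.2, hV2.1]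
  have hV1' : 1 ≤ V1 := by linarith [hV1.1]
  have hpr := hp t s l V1 V2 ht hs hs1 hl hlt hV1 hV2
  have hc0 := c0_nonneg (l := l) hl hs
  have hG : ∀ v ∈ uIcc V1 V2, deriv F (7 / 4 + v * I) / F (7 / 4 + v * I) = -Z a v := by
    intro v hv
    rw [uIcc_of_le hle] at hv
    rw [hLB.ld (7 / 4 + v * I) (by simp; norm_num) (by simp; linarith [hv.1])]
    rfl
  have e1 : (∫ v in V1..V2, deriv F (7 / 4 + v * I) / F (7 / 4 + v * I) *
        H2 l s κ (5 / 4 + ((v - t : ℝ) : ℂ) * I)) =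
      ∫ v in V1..V2, -Z a v * H2 l s κ (wl (v - t)) := by
    refine intervalIntegral.integral_congr fun v hv => ?_
    show deriv F (7 / 4 + v * I) / F (7 / 4 + v * I) * H2 l s κ (5 / 4 + ((v - t : ℝ) : ℂ) * I) = _
    rw [hG v hv]
    rfl
  have e2 : (∫ v in V1..V2, deriv F (7 / 4 + v * I) / F (7 / 4 + v * I) *
        Dk l s (5 / 4 + ((v - t : ℝ) : ℂ) * I)) =
      ∫ v in V1..V2, -Z a v * Dk l s (wl (v - t)) := by
    refine intervalIntegral.integral_congr fun v hv => ?_
    show deriv F (7 / 4 + v * I) / F (7 / 4 + v * I) * Dk l s (5 / 4 + ((v - t : ℝ) : ℂ) * I) = _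
    rw [hG v hv]
    rfl
  have hZc : Continuous fun v => -Z a v := (Z_cont h0 hLB.has).neg
  have hsub : Continuous fun v : ℝ => v - t := by fun_prop
  have hHc : Continuous fun v : ℝ => H2 l s κ (wl (v - t)) :=
    (H2_cont (l := l) hs1 hκ0 hκ1.le).comp hsub
  have hDc : Continuous fun v : ℝ => Dk l s (wl (v - t)) := (Dk_cont hs hs1).comp hsub
  have e3 : (∫ v in V1..V2, -Z a v * H2 l s κ (wl (v - t))) =
      (∫ v in V1..V2, -Z a v * (H2 l s κ (wl (v - t)) + Dk l s (wl (v - t)))) -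
        ∫ v in V1..V2, -Z a v * Dk l s (wl (v - t)) := by
    have i1 : IntervalIntegrable (fun v : ℝ => -Z a v * (H2 l s κ (wl (v - t)) +
        Dk l s (wl (v - t)))) volume V1 V2 := (hZc.mul (hHc.add hDc)).intervalIntegrable _ _
    have i2 : IntervalIntegrable (fun v : ℝ => -Z a v * Dk l s (wl (v - t))) volume V1 V2 :=
      (hZc.mul hDc).intervalIntegrable _ _
    rw [← intervalIntegral.integral_sub i1 i2]
    refine intervalIntegral.integral_congr fun v _ => ?_
    show -Z a v * H2 l s κ (wl (v - t)) = -Z a v * (H2 l s κ (wl (v - t)) + Dk l s (wl (v - t))) -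
      -Z a v * Dk l s (wl (v - t))
    ring
  have hgc : Continuous fun v : ℝ => A * (C1 * (c0 l s + 1 / (l ^ 2 * s))) * (1 + (v - t) ^ 2)⁻¹ :=
    continuous_const.mul (Continuous.inv₀ (by fun_prop) fun v => by positivity)
  have e4 : ‖∫ v in V1..V2, -Z a v * (H2 l s κ (wl (v - t)) + Dk l s (wl (v - t)))‖ ≤
      A * (C1 * (c0 l s + 1 / (l ^ 2 * s))) * Real.pi := by
    have hpos : 0 ≤ A * (C1 * (c0 l s + 1 / (l ^ 2 * s))) := by positivity
    have h5 := intervalIntegral.norm_integral_le_of_norm_le (μ := volume) (a := V1) (b := V2) hle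
      (f := fun v : ℝ => -Z a v * (H2 l s κ (wl (v - t)) + Dk l s (wl (v - t))))
      (g := fun v : ℝ => A * (C1 * (c0 l s + 1 / (l ^ 2 * s))) * (1 + (v - t) ^ 2)⁻¹)
      (Eventually.of_forall fun v _ => by
        rw [norm_mul, norm_neg]
        have h6 := Z_norm h0 hLB.has hLB.ha v
        have h7 := hb l s κ (wl (v - t)) hl hs hs1 hκ0 hκ1.le (wl_re _)
        rw [wl_im] at h7
        calc ‖Z a v‖ * ‖H2 l s κ (wl (v - t)) + Dk l s (wl (v - t))‖ ≤
            A * (C1 * (c0 l s + 1 / (l ^ 2 * s)) / (1 + (v - t) ^ 2)) :=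
              mul_le_mul h6 h7 (norm_nonneg _) (by linarith)
          _ = _ := by rw [div_eq_mul_inv]; ring) (hgc.intervalIntegrable _ _)
    refine h5.trans ?_
    rw [intervalIntegral.integral_const_mul]
    exact mul_le_mul_of_nonneg_left (at_int t V1 V2) hpos
  rw [e1, e3]
  rw [e2] at hpr
  have hpi := Real.pi_pos
  have h8 := (abs_le.1 hpr).1
  have h9 : (∫ v in V1..V2, -Z a v * (H2 l s κ (wl (v - t)) + Dk l s (wl (v - t)))).re ≤
      A * (C1 * (c0 l s + 1 / (l ^ 2 * s))) * Real.pi := (Complex.re_le_norm _).trans e4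
  rw [Complex.sub_re]
  generalize (∫ v in V1..V2, -Z a v * (H2 l s κ (wl (v - t)) + Dk l s (wl (v - t)))).re = E at h9 ⊢
  generalize (∫ v in V1..V2, -Z a v * Dk l s (wl (v - t))).re = D at h8 ⊢
  generalize PSa a l t (kk l s) = S at h8 ⊢
  have h10 : 1 / (2 * Real.pi) * (E - D) = 1 / 2 * (1 / Real.pi * E) - 1 / 2 * (1 / Real.pi * D) := by
    field_simp
  have h11 : 1 / Real.pi * E ≤ A * (C1 * (c0 l s + 1 / (l ^ 2 * s))) := by
    rw [one_div, inv_mul_le_iff₀ hpi]
    linarith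
  have h12 : C2 / (l ^ 2 * s) ≤ C2 * (c0 l s + 1 / (l ^ 2 * s)) := by
    rw [div_eq_mul_one_div]
    exact mul_le_mul_of_nonneg_left (by linarith) hC2.le
  rw [h10]
  nlinarith

end Pool.Agent.N413.GWRE
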